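import Mathlib

/-!
# MP_25d917_an : the LQR decay rate is bounded for skew-Hermitian dynamics

For skew-Hermitian `A` (size `n`) and `B` of size `n × m` with `m < n`, if `X` is a positive
definite solution of the algebraic Riccati equation then the closed-loop matrix
`A - B B* X` has an eigenvalue with real part at least `-(m + 3/2) Δ(A)`, where `Δ(A)` is the
diameter of the spectrum of `A`.

Idea: with `Y = X⁻¹` one has `B B* = Y² + AY - YA`, and the closed-loop matrix is similar to
`A - Y`.  At most `m` eigenvalues of `Y` exceed `Δ(A)`; a gap in the spectrum of `Y` and the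
indefinite form `J = ±1` on the two spectral subspaces force an eigenvalue of `A - Y + c` in
the right half plane.
-/

namespace Pool.Agent.Results.MP_25d917_an.DecayBound

open scoped InnerProductSpace ComplexConjugate Matrix ComplexOrder

universe u

/-- If `Re h(x, Mx) > 0` for all `x ≠ 0` for a Hermitian form `h` which is not negative
definite then `M` has an eigenvalue with positive real part. -/
lemma exists_eigenvalue_re_pos : ∀ (k : ℕ) (V : Type u) [AddCommGroup V] [Module ℂ V]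
    [FiniteDimensional ℂ V], Module.finrank ℂ V = k → ∀ (h : V → V → ℂ),
    (∀ x y z, h x (y + z) = h x y + h x z) → (∀ x (c : ℂ) y, h x (c • y) = c * h x y) →
    (∀ x y, h y x = conj (h x y)) → ∀ M : V →ₗ[ℂ] V, (∀ x, x ≠ 0 → 0 < (h x (M x)).re) →
    (∃ x, x ≠ 0 ∧ 0 ≤ (h x x).re) →
    ∃ lam : ℂ, 0 < lam.re ∧ ∃ v, v ≠ 0 ∧ M v = lam • v := by
  intro k
  induction k using Nat.strong_induction_on with
  | _ k ih =>
  intro V _ _ _ hk h hadd hsmul hsymm M hpos hx
  obtain ⟨x, hx0, hx⟩ := hx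
  have : Nontrivial V := ⟨x, 0, hx0⟩
  obtain ⟨lam, hlam⟩ := Module.End.exists_eigenvalue M
  obtain ⟨v, hv⟩ := hlam.exists_hasEigenvector
  have hv0 : v ≠ 0 := hv.2
  have hMv : M v = lam • v := hv.apply_eq_smul
  have hvvim : (h v v).im = 0 := by
    have := congrArg Complex.im (hsymm v v)
    rw [Complex.conj_im] at this
    linarith
  have hvpos := hpos v hv0
  rw [hMv, hsmul, Complex.mul_re, hvvim, mul_zero, sub_zero] at hvpos
  by_cases hlp : 0 < lam.re
  · exact ⟨lam, hlp, v, hv0, hMv⟩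
  have hlneg : lam.re < 0 := by
    rcases lt_or_eq_of_le (not_lt.1 hlp) with h1 | h1
    · exact h1
    · rw [h1, zero_mul] at hvpos
      exact absurd hvpos (lt_irrefl _)
  have hvvneg : (h v v).re < 0 := by
    by_contra hcon
    push Not at hcon
    have := mul_nonpos_of_nonpos_of_nonneg hlneg.le hcon
    linarith
  have hvv : h v v ≠ 0 := by
    intro h0
    rw [h0] at hvvneg
    simp at hvvneg
  -- the linear functional `h v`
  let ℓ : V →ₗ[ℂ] ℂ :=
    { toFun := h v
      map_add' := hadd v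
      map_smul' := fun c y => by simpa using hsmul v c y }
  have hℓ : ∀ y, ℓ y = h v y := fun y => rfl
  let W : Submodule ℂ V := LinearMap.ker ℓ
  have hW : ∀ y, y ∈ W ↔ h v y = 0 := fun y => LinearMap.mem_ker
  have hWlt : Module.finrank ℂ W < k := by
    rw [← hk]
    apply Submodule.finrank_lt
    intro htop
    have : v ∈ W := by rw [htop]; trivial
    exact hvv ((hW v).1 this)
  let Q : V →ₗ[ℂ] V := M - ((1 / h v v) • (ℓ ∘ₗ M)).smulRight v
  have hQ : ∀ y, Q y = M y - (1 / h v v * h v (M y)) • v := by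
    intro y
    simp [Q, hℓ]
  have hQW : ∀ y, Q y ∈ W := by
    intro y
    rw [hW, hQ, sub_eq_add_neg, hadd, ← neg_smul, hsmul]
    field_simp
    ring
  let M' : W →ₗ[ℂ] W := (Q.comp W.subtype).codRestrict W (fun y => hQW y)
  have hM' : ∀ y : W, ((M' y : W) : V) = M y - (1 / h v v * h v (M y)) • v := fun y => hQ y
  have hv1 : ∀ y : W, h (y : V) v = 0 := by
    intro y
    rw [hsymm v y, (hW y).1 y.2, map_zero]
  have key := ih (Module.finrank ℂ W) hWlt W rfl (fun x y => h x y)
    (fun x y z => by simpa using hadd x y z) (fun x c y => by simpa using hsmul x c y)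
    (fun x y => hsymm x y) M'
    (by
      intro y hy
      have hy' : (y : V) ≠ 0 := fun h0 => hy (Subtype.ext h0)
      show 0 < (h (y : V) ((M' y : W) : V)).re
      rw [hM', sub_eq_add_neg, ← neg_smul, hadd, hsmul, hv1 y, mul_zero, add_zero]
      exact hpos y hy')
    (by
      set α : ℂ := h v x / h v v with hα
      have hw : x + (-α) • v ∈ W := by
        rw [hW, hadd, hsmul, hα]
        field_simp
        ring
      set w : W := ⟨x + (-α) • v, hw⟩ with hwdef
      have hxw : x = (w : V) + α • v := by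
        show x = x + (-α) • v + α • v
        rw [add_assoc, ← add_smul]
        simp
      have e1 : h x x = conj (h (w : V) w) + (α * conj α) * conj (h v v) := by
        have a1 : h x x = h x w + α * h x v := by
          conv_lhs => rw [show h x x = h x ((w : V) + α • v) by rw [← hxw]]
          rw [hadd, hsmul]
        have a2 : h x w = conj (h (w : V) w) := by
          rw [hsymm (w : V) x]
          congr 1
          conv_lhs => rw [hxw]
          rw [hadd, hsmul, hv1 w, mul_zero, add_zero]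
        have a3 : h x v = conj α * conj (h v v) := by
          rw [hsymm v x, ← map_mul]
          congr 1
          conv_lhs => rw [hxw]
          rw [hadd, hsmul, (hW w).1 w.2, zero_add]
        rw [a1, a2, a3]
        ring
      have e2 : (h x x).re = (h (w : V) w).re + Complex.normSq α * (h v v).re := by
        rw [e1, Complex.mul_conj]
        simp [hvvim]
      have hnn : 0 ≤ (h (w : V) w).re := by
        have : Complex.normSq α * (h v v).re ≤ 0 :=
          mul_nonpos_of_nonneg_of_nonpos (Complex.normSq_nonneg α) hvvneg.le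
        linarith
      refine ⟨w, ?_, hnn⟩
      intro hw0
      have hw0' : (w : V) = 0 := by rw [hw0]; rfl
      have hα0 : Complex.normSq α = 0 := by
        by_contra hne
        have hp : 0 < Complex.normSq α := lt_of_le_of_ne (Complex.normSq_nonneg α) (Ne.symm hne)
        have h1 : Complex.normSq α * (h v v).re < 0 := mul_neg_of_pos_of_neg hp hvvneg
        have h2 : h (w : V) w = 0 := by
          rw [hw0']
          have := hsmul 0 0 (0 : V)
          simpa using this
        rw [e2, h2] at hx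
        simp only [Complex.zero_re, zero_add] at hx
        linarith
      have hα1 : α = 0 := Complex.normSq_eq_zero.1 hα0
      apply hx0
      rw [hxw, hw0', hα1]
      simp)
  obtain ⟨ν, hν, y, hy0, hy⟩ := key
  have hy0' : (y : V) ≠ 0 := fun h0 => hy0 (Subtype.ext h0)
  have hMy : M (y : V) = ν • (y : V) + (1 / h v v * h v (M y)) • v := by
    have h1 : ((M' y : W) : V) = ν • (y : V) := by rw [hy]; rfl
    rw [hM'] at h1
    rw [← h1]
    abel
  set c : ℂ := 1 / h v v * h v (M y) with hc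
  have hne : ν - lam ≠ 0 := by
    intro h0
    have : ν = lam := sub_eq_zero.1 h0
    rw [this] at hν
    linarith
  set β : ℂ := c / (ν - lam) with hβ
  refine ⟨ν, hν, (y : V) + β • v, ?_, ?_⟩
  · intro h0
    have h1 : h v ((y : V) + β • v) = 0 := by
      rw [h0]
      have := hsmul v 0 (0 : V)
      simpa using this
    rw [hadd, hsmul, (hW y).1 y.2, zero_add] at h1
    have hβ0 : β = 0 := by
      rcases mul_eq_zero.1 h1 with h2 | h2
      · exact h2
      · exact absurd h2 hvv
    rw [hβ0, zero_smul, add_zero] at h0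
    exact hy0' h0
  · rw [map_add, map_smul, hMy, hMv, smul_add, smul_smul, smul_smul, add_assoc, ← add_smul]
    congr 2
    rw [hβ]
    field_simp
    ring


/-- Pigeonhole: if at most `m` of the numbers `f i` exceed `t`, there is a gap of length `d`
above `t`, starting at `t + k d` with `k ≤ m`. -/
lemma exists_gap {n m : ℕ} (f : Fin n → ℝ) (t d : ℝ) (hd : 0 < d)
    (hf : (Finset.univ.filter fun i => t < f i).card ≤ m) :
    ∃ k : ℕ, k ≤ m ∧ ∀ i, f i ≤ t + k * d ∨ t + (k + 1) * d < f i := by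
  by_contra hcon
  push Not at hcon
  have h1 : ∀ k : Fin (m + 1), ∃ i, t + (k : ℕ) * d < f i ∧ f i ≤ t + ((k : ℕ) + 1) * d :=
    fun k => hcon k (Nat.lt_succ_iff.1 k.2)
  choose g hg using h1
  have hinj : Function.Injective g := by
    have key : ∀ a b : Fin (m + 1), (a : ℕ) < b → g a ≠ g b := by
      intro a b hab he
      have h1 := (hg a).2
      have h2 := (hg b).1
      rw [he] at h1
      have h3 : ((a : ℕ) : ℝ) + 1 ≤ ((b : ℕ) : ℝ) := by exact_mod_cast hab
      have h4 := mul_le_mul_of_nonneg_right h3 hd.le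
      linarith
    intro a b he
    rcases lt_trichotomy (a : ℕ) (b : ℕ) with h | h | h
    · exact absurd he (key a b h)
    · exact Fin.ext h
    · exact absurd he.symm (key b a h)
  have hsub : (Finset.univ.image g) ⊆ (Finset.univ.filter fun i => t < f i) := by
    intro i hi
    obtain ⟨k, -, rfl⟩ := Finset.mem_image.1 hi
    refine Finset.mem_filter.2 ⟨Finset.mem_univ _, ?_⟩
    have h1 := (hg k).1
    have h2 : 0 ≤ ((k : ℕ) : ℝ) * d := by positivity
    linarith
  have hc := Finset.card_le_card hsub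
  rw [Finset.card_image_of_injective _ hinj, Finset.card_univ, Fintype.card_fin] at hc
  omega

section core

variable {E : Type u} [NormedAddCommGroup E] [InnerProductSpace ℂ E] [FiniteDimensional ℂ E]
  {n : ℕ}

/-- Restriction of a vector to the coordinates satisfying `P`. -/
noncomputable def cut (e : OrthonormalBasis (Fin n) ℂ E) (P : Fin n → Prop) [DecidablePred P]
    (x : E) : E :=
  ∑ i, (if P i then e.repr x i else 0) • e i

lemma repr_cut (e : OrthonormalBasis (Fin n) ℂ E) (P : Fin n → Prop) [DecidablePred P]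
    (x : E) (i : Fin n) : e.repr (cut e P x) i = if P i then e.repr x i else 0 := by
  unfold cut
  rw [map_sum]
  simp_rw [map_smul, e.repr_self]
  rw [WithLp.ofLp_sum, Finset.sum_apply, Finset.sum_eq_single i]
  · by_cases hp : P i
    · simp [hp]
    · simp [hp]
  · intro j _ hj
    by_cases hp : P j
    · simp [hp, Ne.symm hj]
    · simp [hp]
  · intro hi
    exact absurd (Finset.mem_univ i) hi

lemma inner_eq_sum (e : OrthonormalBasis (Fin n) ℂ E) (x y : E) :
    ⟪x, y⟫_ℂ = ∑ i, conj (e.repr x i) * e.repr y i := by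
  rw [← e.repr.inner_map_map x y, PiLp.inner_apply]
  refine Finset.sum_congr rfl fun i _ => ?_
  rw [RCLike.inner_apply, mul_comm]

lemma norm_sq_eq_sum (e : OrthonormalBasis (Fin n) ℂ E) (x : E) :
    ‖x‖ ^ 2 = ∑ i, ‖e.repr x i‖ ^ 2 := by
  rw [← e.repr.norm_map x, EuclideanSpace.norm_sq_eq]

theorem core (hn : Module.finrank ℂ E = n) (T S : E →ₗ[ℂ] E)
    (hT : ∀ x y, ⟪T x, y⟫_ℂ = -⟪x, T y⟫_ℂ) (hS : S.IsSymmetric) (b a : ℝ) (hb : 0 ≤ b)
    (hab : b < a) (hbound : ∀ x y : E, ⟪x, y⟫_ℂ = 0 → ‖⟪x, T y⟫_ℂ‖ ≤ b * ‖x‖ * ‖y‖)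
    (m : ℕ) (hmn : m < n)
    (hlarge : (Finset.univ.filter fun i => 2 * b < hS.eigenvalues hn i).card ≤ m) :
    ∃ lam : ℂ, -((2 * m + 1) * a + 2 * b) ≤ lam.re ∧ ∃ v, v ≠ 0 ∧ T v - S v = lam • v := by
  classical
  obtain ⟨k, hkm, hgap⟩ := exists_gap (hS.eigenvalues hn) (2 * b) (2 * a) (by linarith) hlarge
  set lamS : Fin n → ℝ := hS.eigenvalues hn with hlamS
  set e := hS.eigenvectorBasis hn with he
  have hrepr : ∀ v i, e.repr (S v) i = lamS i * e.repr v i := fun v i =>
    hS.eigenvectorBasis_apply_self_apply hn v i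
  set P : Fin n → Prop := fun i => lamS i ≤ 2 * b + k * (2 * a) with hP
  set c : ℝ := 2 * b + k * (2 * a) + a with hc
  let h : E → E → ℂ := fun x y => ⟪cut e P x, y⟫_ℂ - ⟪cut e (fun i => ¬ P i) x, y⟫_ℂ
  have hsum : ∀ x y, h x y = ∑ i, (if P i then (1 : ℂ) else -1) *
      (conj (e.repr x i) * e.repr y i) := by
    intro x y
    show ⟪cut e P x, y⟫_ℂ - ⟪cut e (fun i => ¬ P i) x, y⟫_ℂ = _
    rw [inner_eq_sum e, inner_eq_sum e, ← Finset.sum_sub_distrib]
    refine Finset.sum_congr rfl fun i _ => ?_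
    rw [repr_cut, repr_cut]
    by_cases hp : P i
    · simp [hp]
    · simp [hp]
  let M : E →ₗ[ℂ] E := T - S + (c : ℂ) • LinearMap.id
  have hM : ∀ x, M x = T x - S x + (c : ℂ) • x := fun x => by simp [M]
  -- splitting
  have hsplit : ∀ x, x = cut e P x + cut e (fun i => ¬ P i) x := by
    intro x
    apply e.repr.injective
    ext i
    rw [map_add, PiLp.add_apply, repr_cut, repr_cut]
    by_cases hp : P i
    · simp [hp]
    · simp [hp]
  have horth : ∀ x, ⟪cut e P x, cut e (fun i => ¬ P i) x⟫_ℂ = 0 := by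
    intro x
    rw [inner_eq_sum e]
    refine Finset.sum_eq_zero fun i _ => ?_
    rw [repr_cut, repr_cut]
    by_cases hp : P i
    · simp [hp]
    · simp [hp]
  have hnorm : ∀ x, ‖cut e P x‖ ^ 2 + ‖cut e (fun i => ¬ P i) x‖ ^ 2 = ‖x‖ ^ 2 := by
    intro x
    rw [norm_sq_eq_sum e, norm_sq_eq_sum e, norm_sq_eq_sum e x, ← Finset.sum_add_distrib]
    refine Finset.sum_congr rfl fun i _ => ?_
    rw [repr_cut, repr_cut]
    by_cases hp : P i
    · simp [hp]
    · simp [hp]
  have hre0 : ∀ x, (⟪x, T x⟫_ℂ).re = 0 := by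
    intro x
    have h1 := congrArg Complex.re (hT x x)
    rw [← inner_conj_symm, Complex.conj_re, Complex.neg_re] at h1
    linarith
  have hTpart : ∀ x, -(b * ‖x‖ ^ 2) ≤ (h x (T x)).re := by
    intro x
    set x1 := cut e P x with hx1
    set x2 := cut e (fun i => ¬ P i) x with hx2
    have hxx : x = x1 + x2 := hsplit x
    have e1 : h x (T x) = ⟪x1, T x1⟫_ℂ + ⟪x1, T x2⟫_ℂ - ⟪x2, T x1⟫_ℂ - ⟪x2, T x2⟫_ℂ := by
      show ⟪x1, T x⟫_ℂ - ⟪x2, T x⟫_ℂ = _
      have : T x = T x1 + T x2 := by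
        conv_lhs => rw [hxx]
        rw [map_add]
      rw [this, inner_add_right, inner_add_right]
      ring
    have e2 : (⟪x2, T x1⟫_ℂ).re = -(⟪x1, T x2⟫_ℂ).re := by
      have h1 := congrArg Complex.re (hT x2 x1)
      rw [← inner_conj_symm, Complex.conj_re, Complex.neg_re] at h1
      linarith
    have e3 : (h x (T x)).re = 2 * (⟪x1, T x2⟫_ℂ).re := by
      rw [e1]
      simp only [Complex.add_re, Complex.sub_re]
      rw [hre0, hre0, e2]
      ring
    have h4 := hbound x1 x2 (horth x)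
    have h5 : -‖⟪x1, T x2⟫_ℂ‖ ≤ (⟪x1, T x2⟫_ℂ).re :=
      (abs_le.1 (Complex.abs_re_le_norm _)).1
    rw [e3, ← hnorm x, ← hx1, ← hx2]
    nlinarith [sq_nonneg (‖x1‖ - ‖x2‖), mul_nonneg hb (sq_nonneg (‖x1‖ - ‖x2‖))]
  have hSpart : ∀ x, a * ‖x‖ ^ 2 ≤ (h x (-S x + (c : ℂ) • x)).re := by
    intro x
    rw [hsum, norm_sq_eq_sum e, Finset.mul_sum, Complex.re_sum]
    refine Finset.sum_le_sum fun i _ => ?_
    have e1 : e.repr (-S x + (c : ℂ) • x) i = ((c - lamS i : ℝ) : ℂ) * e.repr x i := by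
      rw [map_add, map_neg, map_smul, PiLp.add_apply, PiLp.neg_apply, PiLp.smul_apply, hrepr]
      push_cast
      rw [smul_eq_mul]
      ring
    rw [e1]
    have e2 : conj (e.repr x i) * (((c - lamS i : ℝ) : ℂ) * e.repr x i) =
        (((c - lamS i) * ‖e.repr x i‖ ^ 2 : ℝ) : ℂ) := by
      have h3 : conj (e.repr x i) * e.repr x i = ((‖e.repr x i‖ ^ 2 : ℝ) : ℂ) := by
        rw [mul_comm, Complex.mul_conj, Complex.normSq_eq_norm_sq]
      calc conj (e.repr x i) * (((c - lamS i : ℝ) : ℂ) * e.repr x i)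
          = ((c - lamS i : ℝ) : ℂ) * (conj (e.repr x i) * e.repr x i) := by ring
        _ = _ := by rw [h3]; push_cast; ring
    rw [e2]
    have hn0 : 0 ≤ ‖e.repr x i‖ ^ 2 := by positivity
    by_cases hp : P i
    · rw [if_pos hp, one_mul, Complex.ofReal_re]
      apply mul_le_mul_of_nonneg_right _ hn0
      have : lamS i ≤ 2 * b + k * (2 * a) := hp
      rw [hc]; linarith
    · rw [if_neg hp]
      have e3 : (-1 : ℂ) * (((c - lamS i) * ‖e.repr x i‖ ^ 2 : ℝ) : ℂ) =
          (((lamS i - c) * ‖e.repr x i‖ ^ 2 : ℝ) : ℂ) := by push_cast; ring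
      rw [e3, Complex.ofReal_re]
      apply mul_le_mul_of_nonneg_right _ hn0
      rcases hgap i with h1 | h1
      · exact absurd h1 hp
      · rw [hc]; linarith
  have hpos : ∀ x, x ≠ 0 → 0 < (h x (M x)).re := by
    intro x hx
    have e1 : h x (M x) = h x (T x) + h x (-S x + (c : ℂ) • x) := by
      have : M x = T x + (-S x + (c : ℂ) • x) := by rw [hM]; abel
      rw [this]
      have haddR : ∀ y z, h x (y + z) = h x y + h x z := by
        intro y z
        show ⟪_, _⟫_ℂ - ⟪_, _⟫_ℂ = (⟪_, _⟫_ℂ - ⟪_, _⟫_ℂ) + (⟪_, _⟫_ℂ - ⟪_, _⟫_ℂ)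
        rw [inner_add_right, inner_add_right]
        ring
      exact haddR _ _
    rw [e1, Complex.add_re]
    have h1 := hTpart x
    have h2 := hSpart x
    have h3 : 0 < ‖x‖ ^ 2 := by positivity
    nlinarith
  have hex : ∃ x, x ≠ 0 ∧ 0 ≤ (h x x).re := by
    have : ∃ i, lamS i ≤ 2 * b := by
      by_contra hcon
      push Not at hcon
      have : (Finset.univ.filter fun i => 2 * b < lamS i) = Finset.univ :=
        Finset.filter_true_of_mem fun i _ => hcon i
      rw [this, Finset.card_univ, Fintype.card_fin] at hlarge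
      omega
    obtain ⟨i, hi⟩ := this
    have hPi : P i := by
      show lamS i ≤ 2 * b + k * (2 * a)
      have : 0 ≤ (k : ℝ) * (2 * a) := by
        have : (0 : ℝ) ≤ k := Nat.cast_nonneg k
        have : 0 < a := lt_of_le_of_lt hb hab
        positivity
      linarith
    refine ⟨e i, ?_, ?_⟩
    · intro h0
      have := e.norm_eq_one i
      rw [h0, norm_zero] at this
      exact zero_ne_one this
    · rw [hsum, Complex.re_sum]
      refine Finset.sum_nonneg fun j _ => ?_
      rw [e.repr_self]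
      by_cases hij : j = i
      · subst hij
        simp [hPi]
      · simp [hij]
  obtain ⟨ν, hν, v, hv0, hv⟩ := exists_eigenvalue_re_pos n E hn h
    (fun x y z => by
      show ⟪_, _⟫_ℂ - ⟪_, _⟫_ℂ = (⟪_, _⟫_ℂ - ⟪_, _⟫_ℂ) + (⟪_, _⟫_ℂ - ⟪_, _⟫_ℂ)
      rw [inner_add_right, inner_add_right]
      ring)
    (fun x c y => by
      show ⟪_, _⟫_ℂ - ⟪_, _⟫_ℂ = c * (⟪_, _⟫_ℂ - ⟪_, _⟫_ℂ)
      rw [inner_smul_right, inner_smul_right]
      ring)
    (fun x y => by
      rw [hsum, hsum, map_sum]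
      refine Finset.sum_congr rfl fun i _ => ?_
      rw [map_mul, map_mul, Complex.conj_conj]
      split_ifs <;> simp <;> ring)
    M hpos hex
  refine ⟨ν - c, ?_, v, hv0, ?_⟩
  · rw [Complex.sub_re, Complex.ofReal_re, hc]
    have h1 : (k : ℝ) ≤ m := by exact_mod_cast hkm
    have h2 : 0 < a := lt_of_le_of_lt hb hab
    nlinarith
  · rw [hM] at hv
    rw [sub_smul, ← hv]
    abel

end core


/-- The decay rate `-max {Re λ : λ eigenvalue of M}` of a matrix. -/
noncomputable def decay {n : ℕ} (M : Matrix (Fin n) (Fin n) ℂ) : ℝ :=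
  -sSup (Complex.re '' spectrum ℂ M)

lemma decay_le {n : ℕ} (M : Matrix (Fin n) (Fin n) ℂ) (lam : ℂ) (v : EuclideanSpace ℂ (Fin n))
    (hv : v ≠ 0) (h : Matrix.toEuclideanLin M v = lam • v) : decay M ≤ -lam.re := by
  have h1 : lam ∈ spectrum ℂ M := by
    rw [← Matrix.spectrum_toLpLin 2]
    apply Module.End.HasEigenvalue.mem_spectrum
    exact Module.End.hasEigenvalue_of_hasEigenvector
      (Module.End.hasEigenvector_iff.2 ⟨Module.End.mem_eigenspace_iff.2 h, hv⟩)
  unfold decay
  apply neg_le_neg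
  exact le_csSup (M.finite_spectrum.image _).bddAbove ⟨lam, h1, rfl⟩

section matrices

variable {n m : ℕ}

lemma skew_T (A : Matrix (Fin n) (Fin n) ℂ) (hA : Aᴴ = -A) (x y : EuclideanSpace ℂ (Fin n)) :
    ⟪Matrix.toEuclideanLin A x, y⟫_ℂ = -⟪x, Matrix.toEuclideanLin A y⟫_ℂ := by
  have h1 : LinearMap.adjoint (Matrix.toEuclideanLin A) = -Matrix.toEuclideanLin A := by
    rw [← Matrix.toEuclideanLin_conjTranspose_eq_adjoint, hA, map_neg]
  rw [← LinearMap.adjoint_inner_left, h1, LinearMap.neg_apply, inner_neg_left, neg_neg]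

/-- For skew-Hermitian `A` some imaginary shift of `A` has norm at most half the diameter of
the spectrum. -/
lemma exists_shift (hn : 0 < n) (A : Matrix (Fin n) (Fin n) ℂ) (hA : Aᴴ = -A) :
    ∃ μ : ℝ, ∀ x : EuclideanSpace ℂ (Fin n),
      ‖Matrix.toEuclideanLin A x - (Complex.I * μ) • x‖ ≤
        Metric.diam (spectrum ℂ A) / 2 * ‖x‖ := by
  set T := Matrix.toEuclideanLin A with hT
  have hH : (((-Complex.I) • T : EuclideanSpace ℂ (Fin n) →ₗ[ℂ] EuclideanSpace ℂ (Fin n))).IsSymmetric := by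
    intro x y
    rw [LinearMap.smul_apply, LinearMap.smul_apply, inner_smul_left, inner_smul_right,
      skew_T A hA]
    simp [hT]
  set H := (-Complex.I) • T with hHdef
  have hfr : Module.finrank ℂ (EuclideanSpace ℂ (Fin n)) = n := finrank_euclideanSpace_fin
  set e := hH.eigenvectorBasis hfr with he
  set τ := hH.eigenvalues hfr with hτ
  have hTH : ∀ x, T x = Complex.I • H x := by
    intro x
    rw [hHdef, LinearMap.smul_apply, smul_smul]
    simp
  have hrepr : ∀ x i, e.repr (T x) i = Complex.I * τ i * e.repr x i := by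
    intro x i
    rw [hTH, map_smul, PiLp.smul_apply, hH.eigenvectorBasis_apply_self_apply hfr, smul_eq_mul,
      mul_assoc]
    rfl
  have hmem : ∀ i, Complex.I * τ i ∈ spectrum ℂ A := by
    intro i
    rw [← Matrix.spectrum_toLpLin 2]
    apply Module.End.HasEigenvalue.mem_spectrum
    refine Module.End.hasEigenvalue_of_hasEigenvector (x := e i)
      (Module.End.hasEigenvector_iff.2 ⟨Module.End.mem_eigenspace_iff.2 ?_, ?_⟩)
    · show T (e i) = _
      rw [hTH, hH.apply_eigenvectorBasis hfr, smul_smul]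
      rfl
    · intro h0
      have := e.norm_eq_one i
      rw [h0, norm_zero] at this
      exact zero_ne_one this
  have hdist : ∀ i j, |τ i - τ j| ≤ Metric.diam (spectrum ℂ A) := by
    intro i j
    have h1 := Metric.dist_le_diam_of_mem A.finite_spectrum.isBounded (hmem i) (hmem j)
    rw [dist_eq_norm, ← mul_sub, norm_mul, Complex.norm_I, one_mul, ← Complex.ofReal_sub,
      Complex.norm_real, Real.norm_eq_abs] at h1
    exact h1
  have : Nonempty (Fin n) := ⟨⟨0, hn⟩⟩
  obtain ⟨i0, hi0⟩ := Finite.exists_max τ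
  obtain ⟨j0, hj0⟩ := Finite.exists_min τ
  refine ⟨(τ i0 + τ j0) / 2, fun x => ?_⟩
  have hD : ∀ i, |τ i - (τ i0 + τ j0) / 2| ≤ Metric.diam (spectrum ℂ A) / 2 := by
    intro i
    have h1 := hdist i0 j0
    have h2 := (abs_le.1 h1).2
    rw [abs_le]
    constructor
    · linarith [hi0 i, hj0 i]
    · linarith [hi0 i, hj0 i]
  have hD0 : 0 ≤ Metric.diam (spectrum ℂ A) / 2 := by
    have := Metric.diam_nonneg (s := spectrum ℂ A)
    positivity
  apply le_of_sq_le_sq _ (by positivity)
  rw [mul_pow, norm_sq_eq_sum e, norm_sq_eq_sum e x, Finset.mul_sum]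
  refine Finset.sum_le_sum fun i _ => ?_
  rw [map_sub, map_smul, PiLp.sub_apply, PiLp.smul_apply, hrepr, smul_eq_mul, ← sub_mul,
    norm_mul, mul_pow]
  apply mul_le_mul_of_nonneg_right _ (by positivity)
  rw [← mul_sub, norm_mul, Complex.norm_I, one_mul, ← Complex.ofReal_sub, Complex.norm_real,
    Real.norm_eq_abs]
  exact pow_le_pow_left₀ (abs_nonneg _) (hD i) 2


/-- `‖S x‖² ≤ ...` : the Riccati relation on the kernel of `B*`. -/
lemma norm_S_le (T S : EuclideanSpace ℂ (Fin n) →ₗ[ℂ] EuclideanSpace ℂ (Fin n))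
    (hT : ∀ x y, ⟪T x, y⟫_ℂ = -⟪x, T y⟫_ℂ) (hS : S.IsSymmetric) (b μ : ℝ)
    (hb : ∀ x, ‖T x - (Complex.I * μ) • x‖ ≤ b * ‖x‖) (x : EuclideanSpace ℂ (Fin n))
    (hx : S (S x) + T (S x) - S (T x) = 0) : ‖S x‖ ≤ 2 * b * ‖x‖ := by
  have h1 : ⟪x, S (S x)⟫_ℂ + ⟪x, T (S x)⟫_ℂ - ⟪x, S (T x)⟫_ℂ = 0 := by
    rw [← inner_add_right, ← inner_sub_right, hx, inner_zero_right]
  have h2 : ⟪x, S (S x)⟫_ℂ = ((‖S x‖ ^ 2 : ℝ) : ℂ) := by
    rw [← hS x (S x), inner_self_eq_norm_sq_to_K]
    push_cast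
    rfl
  have h3 : ⟪x, T (S x)⟫_ℂ = -⟪T x, S x⟫_ℂ := by rw [hT x (S x), neg_neg]
  have h4 : ⟪x, S (T x)⟫_ℂ = conj ⟪T x, S x⟫_ℂ := by
    rw [← hS x (T x), inner_conj_symm]
  rw [h2, h3, h4] at h1
  have h5 : ‖S x‖ ^ 2 = 2 * (⟪T x, S x⟫_ℂ).re := by
    have := congrArg Complex.re h1
    simp only [Complex.sub_re, Complex.add_re, Complex.neg_re, Complex.conj_re,
      Complex.ofReal_re, Complex.zero_re] at this
    linarith
  have h6 : (⟪(Complex.I * μ) • x, S x⟫_ℂ).re = 0 := by
    have h7 : (⟪x, S x⟫_ℂ).im = 0 := by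
      have h8 := congrArg Complex.im (hS x x)
      rw [← inner_conj_symm, Complex.conj_im] at h8
      linarith
    rw [inner_smul_left]
    simp [Complex.mul_re, h7]
  have h9 : (⟪T x, S x⟫_ℂ).re = (⟪T x - (Complex.I * μ) • x, S x⟫_ℂ).re := by
    rw [inner_sub_left, Complex.sub_re, h6, sub_zero]
  have h10 : (⟪T x - (Complex.I * μ) • x, S x⟫_ℂ).re ≤ b * ‖x‖ * ‖S x‖ :=
    calc (⟪T x - (Complex.I * μ) • x, S x⟫_ℂ).re ≤ ‖⟪T x - (Complex.I * μ) • x, S x⟫_ℂ‖ :=
          Complex.re_le_norm _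
      _ ≤ ‖T x - (Complex.I * μ) • x‖ * ‖S x‖ := norm_inner_le_norm _ _
      _ ≤ b * ‖x‖ * ‖S x‖ := mul_le_mul_of_nonneg_right (hb x) (norm_nonneg _)
  rw [← h9] at h10
  rcases eq_or_lt_of_le (norm_nonneg (S x)) with h0 | h0
  · rw [← h0]
    have := (norm_nonneg (T x - (Complex.I * μ) • x)).trans (hb x)
    linarith
  · by_contra hcon
    push Not at hcon
    nlinarith

/-- At most `m` eigenvalues of `S` exceed `2b`. -/
lemma card_large (hn : Module.finrank ℂ (EuclideanSpace ℂ (Fin n)) = n)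
    (S : EuclideanSpace ℂ (Fin n) →ₗ[ℂ] EuclideanSpace ℂ (Fin n)) (hS : S.IsSymmetric) (b : ℝ)
    (hb : 0 ≤ b) (F : EuclideanSpace ℂ (Fin n) →ₗ[ℂ] (Fin m → ℂ))
    (hF : ∀ x, F x = 0 → ‖S x‖ ≤ 2 * b * ‖x‖) :
    (Finset.univ.filter fun i => 2 * b < hS.eigenvalues hn i).card ≤ m := by
  classical
  set L := Finset.univ.filter fun i => 2 * b < hS.eigenvalues hn i with hL
  set e := hS.eigenvectorBasis hn with he
  let G : (L → ℂ) →ₗ[ℂ] EuclideanSpace ℂ (Fin n) :=
    Fintype.linearCombination ℂ (fun i : L => e i)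
  have hG : ∀ z, G z = ∑ i : L, z i • e i := fun z => by
    simp [G, Fintype.linearCombination_apply]
  have hGrepr : ∀ z j, e.repr (G z) j = if h : j ∈ L then z ⟨j, h⟩ else 0 := by
    intro z j
    rw [hG, map_sum]
    simp_rw [map_smul, e.repr_self]
    rw [WithLp.ofLp_sum, Finset.sum_apply]
    by_cases hj : j ∈ L
    · rw [dif_pos hj, Finset.sum_eq_single ⟨j, hj⟩]
      · simp
      · intro i _ hij
        have : (i : Fin n) ≠ j := fun h => hij (Subtype.ext h)
        simp [this.symm]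
      · intro h
        exact absurd (Finset.mem_univ _) h
    · rw [dif_neg hj]
      refine Finset.sum_eq_zero fun i _ => ?_
      have : (i : Fin n) ≠ j := fun h => hj (h ▸ i.2)
      simp [this.symm]
  have hinj : Function.Injective (F.comp G) := by
    rw [← LinearMap.ker_eq_bot, LinearMap.ker_eq_bot']
    intro z hz
    have h1 := hF (G z) hz
    have h2 : ‖S (G z)‖ ^ 2 ≤ (2 * b * ‖G z‖) ^ 2 := pow_le_pow_left₀ (norm_nonneg _) h1 2
    rw [mul_pow, norm_sq_eq_sum e, norm_sq_eq_sum e (G z), Finset.mul_sum] at h2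
    have hself : ∀ j, ‖e.repr (S (G z)) j‖ ^ 2 =
        (hS.eigenvalues hn j) ^ 2 * ‖e.repr (G z) j‖ ^ 2 := by
      intro j
      have h3 : e.repr (S (G z)) j = ((hS.eigenvalues hn j : ℝ) : ℂ) * e.repr (G z) j :=
        hS.eigenvectorBasis_apply_self_apply hn _ j
      rw [h3, norm_mul, mul_pow, Complex.norm_real, Real.norm_eq_abs, sq_abs]
    have hterm : ∀ j ∈ Finset.univ, (2 * b) ^ 2 * ‖e.repr (G z) j‖ ^ 2 ≤
        ‖e.repr (S (G z)) j‖ ^ 2 := by
      intro j _
      rw [hself]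
      by_cases hj : j ∈ L
      · refine mul_le_mul_of_nonneg_right ?_ (by positivity)
        have h3 : 2 * b < hS.eigenvalues hn j := (Finset.mem_filter.1 hj).2
        exact pow_le_pow_left₀ (by linarith) h3.le 2
      · have : e.repr (G z) j = 0 := by rw [hGrepr, dif_neg hj]
        rw [this]
        simp
    have hall := (Finset.sum_eq_sum_iff_of_le hterm).1
      (le_antisymm (Finset.sum_le_sum hterm) h2)
    funext i
    have h5 := hall (i : Fin n) (Finset.mem_univ _)
    rw [hself] at h5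
    have h3 : 2 * b < hS.eigenvalues hn i := (Finset.mem_filter.1 i.2).2
    have h7 : ‖e.repr (G z) i‖ ^ 2 = 0 := by
      have h8 : (2 * b) ^ 2 < (hS.eigenvalues hn i) ^ 2 :=
        pow_lt_pow_left₀ h3 (by linarith) (by norm_num)
      nlinarith [sq_nonneg ‖e.repr (G z) i‖]
    have h9 : e.repr (G z) i = 0 := by
      rw [← norm_eq_zero]
      exact pow_eq_zero_iff (two_ne_zero) |>.1 h7
    rw [hGrepr, dif_pos i.2] at h9
    exact h9
  have := LinearMap.finrank_le_finrank_of_injective hinj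
  rwa [Module.finrank_fintype_fun_eq_card, Module.finrank_fintype_fun_eq_card,
    Fintype.card_coe, Fintype.card_fin] at this

/-- **Uniform bound on the LQR decay rate for skew-Hermitian dynamics** (answer to Q1: yes).
If `A` is skew-Hermitian of size `n`, `B` is of size `n × m` with `m < n`, and `X` is a positive
definite solution of the algebraic Riccati equation, then the decay rate of the closed-loop
matrix `A - B B* X` is at most `(m + 3/2) Δ(A)`. -/
theorem result (n m : ℕ) (hmn : m < n) (A : Matrix (Fin n) (Fin n) ℂ) (hA : Aᴴ = -A)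
    (B : Matrix (Fin n) (Fin m) ℂ) (X : Matrix (Fin n) (Fin n) ℂ) (hX : X.PosDef)
    (hR : Aᴴ * X + X * A - X * B * Bᴴ * X + 1 = 0) :
    decay (A - B * Bᴴ * X) ≤ (m + 3 / 2) * Metric.diam (spectrum ℂ A) := by
  set Y := X⁻¹ with hY
  have hdet : IsUnit X.det := (Matrix.isUnit_iff_isUnit_det X).1 hX.isUnit
  have hXY : X * Y = 1 := Matrix.mul_nonsing_inv X hdet
  have hYX : Y * X = 1 := Matrix.nonsing_inv_mul X hdet
  have hYh : Y.IsHermitian := hX.inv.isHermitian
  rw [hA, Matrix.mul_assoc X B Bᴴ] at hR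
  have hBB : B * Bᴴ = Y * Y + A * Y - Y * A := by
    have h1 : Y * (-A * X + X * A - X * (B * Bᴴ) * X + 1) * Y =
        -(Y * A) * (X * Y) + (Y * X) * A * Y - (Y * X) * (B * Bᴴ) * (X * Y) + Y * Y := by
      noncomm_ring
    rw [hR, hXY, hYX] at h1
    simp only [mul_zero, zero_mul, mul_one, one_mul] at h1
    have h2 : B * Bᴴ = (-(Y * A) + A * Y - B * Bᴴ + Y * Y) + B * Bᴴ := by rw [← h1, zero_add]
    rw [h2]
    abel
  have hcl : (A - B * Bᴴ * X) * Y = Y * (A - Y) := by
    rw [sub_mul, mul_assoc (B * Bᴴ), hXY, mul_one, hBB, mul_sub]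
    abel
  have hfr : Module.finrank ℂ (EuclideanSpace ℂ (Fin n)) = n := finrank_euclideanSpace_fin
  obtain ⟨μ, hμ⟩ := exists_shift (by omega) A hA
  set b := Metric.diam (spectrum ℂ A) / 2 with hb
  have hb0 : 0 ≤ b := by
    have := Metric.diam_nonneg (s := spectrum ℂ A)
    positivity
  have hS : (Matrix.toEuclideanLin Y).IsSymmetric := Matrix.isSymmetric_toEuclideanLin_iff.2 hYh
  have hT := skew_T A hA
  have hlarge : (Finset.univ.filter fun i => 2 * b < hS.eigenvalues hfr i).card ≤ m := by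
    refine card_large hfr _ hS b hb0
      ((Matrix.toLin' Bᴴ).comp (WithLp.linearEquiv 2 ℂ (Fin n → ℂ)).toLinearMap) ?_
    intro x hx
    refine norm_S_le _ _ hT hS b μ hμ x ?_
    have hx' : Bᴴ *ᵥ (x.ofLp) = 0 := hx
    have h1 : (Y * Y + A * Y - Y * A) *ᵥ x.ofLp = 0 := by
      rw [← hBB, ← Matrix.mulVec_mulVec, hx', Matrix.mulVec_zero]
    rw [Matrix.sub_mulVec, Matrix.add_mulVec, ← Matrix.mulVec_mulVec, ← Matrix.mulVec_mulVec,
      ← Matrix.mulVec_mulVec] at h1
    ext i
    have := congrFun h1 i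
    simpa using this
  have hbound : ∀ x y : EuclideanSpace ℂ (Fin n), ⟪x, y⟫_ℂ = 0 →
      ‖⟪x, Matrix.toEuclideanLin A y⟫_ℂ‖ ≤ b * ‖x‖ * ‖y‖ := by
    intro x y hxy
    have h1 : ⟪x, Matrix.toEuclideanLin A y⟫_ℂ =
        ⟪x, Matrix.toEuclideanLin A y - (Complex.I * μ) • y⟫_ℂ := by
      rw [inner_sub_right, inner_smul_right, hxy, mul_zero, sub_zero]
    rw [h1]
    calc _ ≤ ‖x‖ * ‖Matrix.toEuclideanLin A y - (Complex.I * μ) • y‖ := norm_inner_le_norm _ _
      _ ≤ ‖x‖ * (b * ‖y‖) := mul_le_mul_of_nonneg_left (hμ y) (norm_nonneg _)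
      _ = b * ‖x‖ * ‖y‖ := by ring
  have hmain : ∀ ε : ℝ, 0 < ε → decay (A - B * Bᴴ * X) ≤
      (m + 3 / 2) * Metric.diam (spectrum ℂ A) + ε := by
    intro ε hε
    have hm1 : (0 : ℝ) < 2 * m + 1 := by positivity
    obtain ⟨lam, hlam, v, hv0, hv⟩ := core hfr (Matrix.toEuclideanLin A)
      (Matrix.toEuclideanLin Y) hT hS b (b + ε / (2 * m + 1)) hb0
      (by have : 0 < ε / (2 * m + 1) := by positivity
          linarith) hbound m hmn hlarge
    have hw : Matrix.toEuclideanLin Y v ≠ 0 := by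
      intro h0
      apply hv0
      have h1 : Y *ᵥ v.ofLp = 0 := by
        have := congrArg WithLp.ofLp h0
        simpa using this
      have h2 : v.ofLp = 0 := by
        have : X *ᵥ (Y *ᵥ v.ofLp) = 0 := by rw [h1, Matrix.mulVec_zero]
        rwa [Matrix.mulVec_mulVec, hXY, Matrix.one_mulVec] at this
      ext i
      exact congrFun h2 i
    have heig : Matrix.toEuclideanLin (A - B * Bᴴ * X) (Matrix.toEuclideanLin Y v) =
        lam • Matrix.toEuclideanLin Y v := by
      have h1 : (A - Y) *ᵥ v.ofLp = lam • v.ofLp := by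
        have := congrArg WithLp.ofLp hv
        rw [Matrix.sub_mulVec]
        simpa using this
      have h2 : (A - B * Bᴴ * X) *ᵥ (Y *ᵥ v.ofLp) = lam • (Y *ᵥ v.ofLp) := by
        rw [Matrix.mulVec_mulVec, hcl, ← Matrix.mulVec_mulVec, h1, Matrix.mulVec_smul]
      ext i
      exact congrFun h2 i
    have h3 := decay_le _ lam _ hw heig
    have h4 : (2 * (m : ℝ) + 1) * (b + ε / (2 * m + 1)) + 2 * b =
        (m + 3 / 2) * Metric.diam (spectrum ℂ A) + ε := by
      rw [hb]
      field_simp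
      ring
    rw [h4] at hlam
    linarith
  exact le_of_forall_pos_le_add hmain

end matrices

end Pool.Agent.Results.MP_25d917_an.DecayBound
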